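import Mathlib
import Pool.Agent.Helper278.RGStmt
import Pool.Agent.Y671.HU.Gen
import Pool.Agent.Y364.AZ.Amp

/-!
# Amplifications of rigid II₁ factors have no homomorphisms into the ultrapower at all

For every set `X` there is a II₁ factor `M`, with a family of orthogonal unitaries indexed by `X`
(so there are such factors of arbitrarily large density character), such that for every
nonprincipal ultrafilter `U` on `ℕ` and every `t > 1` every star homomorphism, unital or not, from
the amplification `M^t` to the tracial ultrapower `M^U` is zero, while every nonzero star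
homomorphism from `M` to `M^U` is unital and commutes with no projection other than `0` and `1`.
-/

set_option autoImplicit false

namespace Pool.Agent.Results.MP_08ffb4_an.AllAmplifications

open Pool.Agent.Helper278 Pool.Agent.Helper278.RG
open scoped BoundedContinuousFunction

universe u

/-- For every `t > 1` the amplification `M^t`, in the model `p M_n(M) p` with a projection `p` of
trace `t / n`, is such that for every nonprincipal ultrafilter `U` on `ℕ` every star homomorphism,
unital or not, from `M^t` to the tracial ultrapower `M^U` is zero. -/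
def AmplificationHomsZero {M : Type u} [NormedRing M] [StarRing M] [CStarRing M]
    [NormedAlgebra ℂ M] [StarModule ℂ M] (τ : M → ℂ) : Prop :=
  ∀ t : ℝ, 1 < t → ∃ (n : ℕ) (p : Matrix (Fin n) (Fin n) M) (hp : IsStarProjection p),
    AmpProj τ t n p ∧
    ∀ U : Ultrafilter ℕ, (∀ n, {n} ∉ U) → ∀ (Q : Type u) [Ring Q] [StarRing Q] [Algebra ℂ Q]
      [StarModule ℂ Q] (π : (ℕ →ᵇ M) →⋆ₐ[ℂ] Q) (σ : Q → ℂ), IsTracialUltrapower τ U π σ →
      ∀ f : corner p hp →⋆ₙₐ[ℂ] Q, ∀ x, f x = 0

/-- For every nonprincipal ultrafilter `U` on `ℕ` and every nonzero star homomorphism `f` from `M`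
to the tracial ultrapower `M^U`, `f` is unital and the only projections of `M^U` which commute with
all `f x` are `0` and `1`. -/
def HomsIrreducible {M : Type u} [NormedRing M] [StarRing M] [CStarRing M]
    [NormedAlgebra ℂ M] [StarModule ℂ M] (τ : M → ℂ) : Prop :=
  ∀ U : Ultrafilter ℕ, (∀ n, {n} ∉ U) → ∀ (Q : Type u) [Ring Q] [StarRing Q] [Algebra ℂ Q]
    [StarModule ℂ Q] (π : (ℕ →ᵇ M) →⋆ₐ[ℂ] Q) (σ : Q → ℂ), IsTracialUltrapower τ U π σ →
    ∀ f : M →⋆ₙₐ[ℂ] Q, f 1 ≠ 0 → f 1 = 1 ∧
      ∀ q : Q, IsStarProjection q → (∀ x, f x * q = q * f x) → q = 0 ∨ q = 1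

/-- There are unitaries `e x`, `x ∈ X`, that are orthogonal for the trace. -/
def HasOrthogonalUnitaries {M : Type u} [NormedRing M] [StarRing M] (X : Type) (τ : M → ℂ) :
    Prop :=
  ∃ e : X → M, (∀ x, star (e x) * e x = 1 ∧ e x * star (e x) = 1) ∧
    ∀ x y, x ≠ y → τ (star (e x) * e y) = 0

/-- The trace `τ` on the star algebra `M` has all the properties of the theorem: the ultrapowers
exist; there are unitaries `e x`, `x ∈ X`, that are orthogonal for the trace; every star
homomorphism `M^t → M^U` with `t > 1` is zero; every nonzero star homomorphism `M → M^U` is unital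
and its range commutes with no projection other than `0` and `1`. -/
def IsRigid {M : Type u} [NormedRing M] [StarRing M] [CStarRing M]
    [NormedAlgebra ℂ M] [StarModule ℂ M] (X : Type) (τ : M → ℂ) : Prop :=
  UltrapowersExist τ ∧ HasOrthogonalUnitaries X τ ∧ AmplificationHomsZero τ ∧ HomsIrreducible τ

/-- For every set `X` there is a II₁ factor `M` with a family of unitaries, orthogonal for the
trace and indexed by `X`, such that for every nonprincipal ultrafilter `U` on `ℕ` and every `t > 1`
every star homomorphism from `M^t` to `M^U`, unital or not, is zero, and every nonzero star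
homomorphism from `M` to `M^U` is unital and its range commutes with no projection other than `0`
and `1`. -/
theorem result (X : Type) :
    ∃ (H : Type) (_ : NormedAddCommGroup H) (_ : InnerProductSpace ℂ H) (_ : CompleteSpace H)
      (M : VonNeumannAlgebra H) (τ : Elt M → ℂ), IsIIOneFactor M τ ∧ IsRigid (M := Elt M) X τ := by
  have b : HilbertBasis (Gp (ends (Pool.Agent.Y671.HU.J1 X) (Pool.Agent.Y671.HU.J2 X))) ℂ
    (lp (fun _ : Gp (ends (Pool.Agent.Y671.HU.J1 X) (Pool.Agent.Y671.HU.J2 X)) => ℂ) 2) := default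
  have hu := Pool.Agent.Y671.HU.homsUnitalg b (Pool.Agent.Y671.HU.cJ1 X)
    (Pool.Agent.Y671.HU.cJ2 X)
  refine ⟨lp (fun _ : Gp (ends (Pool.Agent.Y671.HU.J1 X) (Pool.Agent.Y671.HU.J2 X)) => ℂ) 2,
    inferInstance, inferInstance, inferInstance, LK b, (TL b).τ,
    Pool.Agent.Y671.HU.factorg b, fun U _ => exists_ultrapower (TL b) U,
    ⟨fun x => La b (Pool.Agent.Y671.HU.emb X x), fun x => ⟨Pool.Agent.Y671.HU.La_unit b _,
      Pool.Agent.Y671.HU.La_unit' b _⟩, fun x y hxy => Pool.Agent.Y671.HU.La_orth b _ _
        (fun h => hxy (Pool.Agent.Y671.HU.emb_injective X h))⟩, ?_, ?_⟩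
  · exact Pool.Agent.Y364.AZ.amp_zero (TL b) (Pool.Agent.Y671.HU.lyapg b)
      (Pool.Agent.Y671.HU.factorg b).center hu
  · intro U hU Q _ _ _ _ π σ hπ f hf
    exact ⟨hu U hU Q π σ hπ f hf, fun q hq hc =>
      Pool.Agent.Y671.HU.comm_proj hu hU hπ f hf hq hc⟩

end Pool.Agent.Results.MP_08ffb4_an.AllAmplifications
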